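import Pool.Agent.Y52.SJ.Stm3

/-!
# Project SJ (helper52), job SEC: sections of an unconditional convex domain

Author of this file: helper726.
-/

set_option autoImplicit false

namespace Pool.Agent.Y726.SJ.SEC

open Pool.Agent.Y52.SJ Set

/-- Invariance under reflections in the coordinate hyperplanes. -/
def Sgn {m : ℕ} (A : Set (Fin m → ℝ)) : Prop :=
  ∀ x ∈ A, ∀ a : Fin m → ℝ, (∀ i, |a i| = 1) → (fun i => a i * x i) ∈ A

lemma solid_of_sgn {m : ℕ} {A : Set (Fin m → ℝ)} (hc : Convex ℝ A) (hs : Sgn A) : Solid A := by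
  intro x hx y hy
  have key : ∀ s : Finset (Fin m), s.piecewise y x ∈ A := by
    intro s
    induction s using Finset.induction_on with
    | empty => simpa using hx
    | insert j s hj ih =>
      set w := s.piecewise y x with hw
      have hwj : w j = x j := by simp [hw, hj]
      have h2 := hs w ih (fun i => if i = j then -1 else 1) (fun i => by
        by_cases h : i = j <;> simp [h])
      rw [Finset.piecewise_insert]
      by_cases hxj : x j = 0
      · have hyj : y j = 0 := by
          have := hy j
          rw [hxj, abs_zero] at this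
          exact abs_nonpos_iff.1 this
        have h3 : Function.update w j (y j) = w := by
          funext i
          by_cases hij : i = j
          · subst hij
            rw [Function.update_self, hyj, hwj, hxj]
          · rw [Function.update_of_ne hij]
        rw [h3]
        exact ih
      · set t : ℝ := (1 + y j / x j) / 2 with ht
        have h4 : |y j / x j| ≤ 1 := by
          rw [abs_div, div_le_one (abs_pos.2 hxj)]
          exact hy j
        have h5 := abs_le.1 h4
        have ht0 : 0 ≤ t := by rw [ht]; linarith [h5.1]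
        have ht1 : 0 ≤ 1 - t := by rw [ht]; linarith [h5.2]
        have h6 := hc ih h2 ht0 ht1 (by ring)
        have h7 : t • w + (1 - t) • (fun i => (if i = j then (-1 : ℝ) else 1) * w i) =
            Function.update w j (y j) := by
          funext i
          by_cases hij : i = j
          · subst hij
            simp only [Pi.add_apply, Pi.smul_apply, smul_eq_mul, if_true, Function.update_self]
            rw [hwj, ht]
            field_simp
            ring
          · simp only [Pi.add_apply, Pi.smul_apply, smul_eq_mul, if_neg hij,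
              Function.update_of_ne hij]
            ring
        rw [← h7]
        exact h6
  have := key Finset.univ
  simpa using this

lemma smul_mem {m : ℕ} {A : Set (Fin m → ℝ)} (ho : IsOpen A) (hc : Convex ℝ A) (h0 : 0 ∈ A)
    {x : Fin m → ℝ} (hx : x ∈ closure A) {t : ℝ} (ht0 : 0 ≤ t) (ht1 : t < 1) : t • x ∈ A := by
  have h1 : (0 : Fin m → ℝ) ∈ interior A := by rwa [ho.interior_eq]
  have h2 := hc.combo_interior_closure_mem_interior h1 hx (sub_pos.2 ht1) ht0 (by ring)
  rw [smul_zero, zero_add, ho.interior_eq] at h2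
  exact h2

lemma body_closure {m : ℕ} {A : Set (Fin m → ℝ)} (ho : IsOpen A) (hc : Convex ℝ A)
    (hb : Bornology.IsBounded A) (h0 : 0 ∈ A) (hs : Sgn A) : Body (closure A) where
  cpt := Metric.isCompact_of_isClosed_isBounded isClosed_closure hb.closure
  conv := hc.closure
  solid := by
    intro x hx y hy
    have h1 : ∀ t : ℝ, t ∈ Ioo (0 : ℝ) 1 → t • y ∈ A := by
      intro t ht
      refine solid_of_sgn hc hs _ (smul_mem ho hc h0 hx ht.1.le ht.2) _ fun i => ?_
      simp only [Pi.smul_apply, smul_eq_mul, abs_mul]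
      exact mul_le_mul_of_nonneg_left (hy i) (abs_nonneg _)
    have h2 : Filter.Tendsto (fun t : ℝ => t • y) (nhdsWithin 1 (Ioo 0 1)) (nhds y) := by
      have h3 : Filter.Tendsto (fun t : ℝ => t • y) (nhds 1) (nhds ((1 : ℝ) • y)) :=
        (continuous_id.smul continuous_const).tendsto 1
      rw [one_smul] at h3
      exact h3.mono_left nhdsWithin_le_nhds
    have h4 : (nhdsWithin (1 : ℝ) (Ioo 0 1)).NeBot := by
      rw [← mem_closure_iff_nhdsWithin_neBot, closure_Ioo (by norm_num)]
      exact ⟨by norm_num, le_refl _⟩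
    exact mem_closure_of_tendsto h2 (Filter.eventually_of_mem self_mem_nhdsWithin h1)
  pos := by
    obtain ⟨ε, hε, h1⟩ := Metric.isOpen_iff.1 ho 0 h0
    refine ⟨fun _ => ε / 2, subset_closure (h1 ?_), fun i => by positivity⟩
    rw [Metric.mem_ball, dist_pi_lt_iff hε]
    intro i
    simp only [Pi.zero_apply, dist_zero_right, Real.norm_eq_abs]
    rw [abs_of_pos (by positivity)]
    linarith

theorem main : S_SEC := by
  intro m K ho hc hb hne hu
  have hq : ∀ z ∈ K, (z.1, (0 : Fin m → ℝ)) ∈ K := by
    intro z hz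
    have h1 := hu z hz (fun _ => 1) (fun _ => -1) (fun _ => by simp) (fun _ => by simp)
    have h2 := hc hz h1 (by norm_num : (0 : ℝ) ≤ 1 / 2) (by norm_num : (0 : ℝ) ≤ 1 / 2)
      (by norm_num)
    convert h2 using 1
    refine Prod.ext ?_ ?_
    · funext i
      simp only [Prod.fst_add, Prod.smul_fst, Pi.add_apply, Pi.smul_apply, smul_eq_mul]
      ring
    · funext i
      simp only [Prod.snd_add, Prod.smul_snd, Pi.add_apply, Pi.smul_apply, smul_eq_mul,
        Pi.zero_apply]
      ring
  have hp : ∀ z ∈ K, ((0 : Fin m → ℝ), z.2) ∈ K := by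
    intro z hz
    have h1 := hu z hz (fun _ => -1) (fun _ => 1) (fun _ => by simp) (fun _ => by simp)
    have h2 := hc hz h1 (by norm_num : (0 : ℝ) ≤ 1 / 2) (by norm_num : (0 : ℝ) ≤ 1 / 2)
      (by norm_num)
    convert h2 using 1
    refine Prod.ext ?_ ?_
    · funext i
      simp only [Prod.fst_add, Prod.smul_fst, Pi.add_apply, Pi.smul_apply, smul_eq_mul,
        Pi.zero_apply]
      ring
    · funext i
      simp only [Prod.snd_add, Prod.smul_snd, Pi.add_apply, Pi.smul_apply, smul_eq_mul]
      ring
  obtain ⟨z0, hz0⟩ := hne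
  have h00 : ((0 : Fin m → ℝ), (0 : Fin m → ℝ)) ∈ K := hp _ (hq z0 hz0)
  -- the two sections
  set A : Set (Fin m → ℝ) := {q | (q, (0 : Fin m → ℝ)) ∈ K} with hA
  set B : Set (Fin m → ℝ) := {p | ((0 : Fin m → ℝ), p) ∈ K} with hB
  have hAo : IsOpen A := ho.preimage (continuous_id.prodMk continuous_const)
  have hBo : IsOpen B := ho.preimage (continuous_const.prodMk continuous_id)
  have hAc : Convex ℝ A := by
    intro x hx y hy a b ha hb' hab
    have h1 : a • (x, (0 : Fin m → ℝ)) + b • (y, (0 : Fin m → ℝ)) ∈ K := hc hx hy ha hb' hab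
    have h2 : a • (x, (0 : Fin m → ℝ)) + b • (y, (0 : Fin m → ℝ)) =
        (a • x + b • y, (0 : Fin m → ℝ)) := by
      refine Prod.ext rfl ?_
      simp
    rw [h2] at h1
    exact h1
  have hBc : Convex ℝ B := by
    intro x hx y hy a b ha hb' hab
    have h1 : a • ((0 : Fin m → ℝ), x) + b • ((0 : Fin m → ℝ), y) ∈ K := hc hx hy ha hb' hab
    have h2 : a • ((0 : Fin m → ℝ), x) + b • ((0 : Fin m → ℝ), y) =
        ((0 : Fin m → ℝ), a • x + b • y) := by
      refine Prod.ext ?_ rfl
      simp
    rw [h2] at h1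
    exact h1
  obtain ⟨C, hC⟩ := isBounded_iff_forall_norm_le.1 hb
  have hAb : Bornology.IsBounded A := by
    refine isBounded_iff_forall_norm_le.2 ⟨C, fun x hx => ?_⟩
    exact (norm_fst_le (x, (0 : Fin m → ℝ))).trans (hC _ hx)
  have hBb : Bornology.IsBounded B := by
    refine isBounded_iff_forall_norm_le.2 ⟨C, fun x hx => ?_⟩
    exact (norm_snd_le ((0 : Fin m → ℝ), x)).trans (hC _ hx)
  have hAs : Sgn A := by
    intro x hx a ha
    have h1 := hu _ hx a (fun _ => 1) ha (fun _ => by simp)
    have h2 : (((fun i => a i * x i), (fun _ => 1 * (0 : ℝ))) : (Fin m → ℝ) × (Fin m → ℝ)) =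
        ((fun i => a i * x i), (0 : Fin m → ℝ)) := by
      refine Prod.ext rfl ?_
      funext i
      simp
    show ((fun i => a i * x i), (0 : Fin m → ℝ)) ∈ K
    rw [← h2]
    exact h1
  have hBs : Sgn B := by
    intro x hx a ha
    have h1 := hu _ hx (fun _ => 1) a (fun _ => by simp) ha
    have h2 : (((fun _ => 1 * (0 : ℝ)), (fun i => a i * x i)) : (Fin m → ℝ) × (Fin m → ℝ)) =
        ((0 : Fin m → ℝ), (fun i => a i * x i)) := by
      refine Prod.ext ?_ rfl
      funext i
      simp
    show ((0 : Fin m → ℝ), (fun i => a i * x i)) ∈ K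
    rw [← h2]
    exact h1
  refine ⟨closure A, closure B, body_closure hAo hAc hAb h00 hAs,
    body_closure hBo hBc hBb h00 hBs,
    fun z hz => ⟨subset_closure (hq z hz), subset_closure (hp z hz)⟩, ?_⟩
  intro q hq' p hp' r hr0 hr1
  have h1 : (2 * r) • q ∈ A := smul_mem hAo hAc h00 hq' (by positivity) (by linarith)
  have h2 : (2 * r) • p ∈ B := smul_mem hBo hBc h00 hp' (by positivity) (by linarith)
  have h3 := hc (show ((2 * r) • q, (0 : Fin m → ℝ)) ∈ K from h1)
    (show ((0 : Fin m → ℝ), (2 * r) • p) ∈ K from h2)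
    (by norm_num : (0 : ℝ) ≤ 1 / 2) (by norm_num : (0 : ℝ) ≤ 1 / 2) (by norm_num)
  convert h3 using 1
  refine Prod.ext ?_ ?_
  · funext i
    simp only [Prod.fst_add, Prod.smul_fst, Pi.add_apply, Pi.smul_apply, smul_eq_mul,
      Pi.zero_apply]
    ring
  · funext i
    simp only [Prod.snd_add, Prod.smul_snd, Pi.add_apply, Pi.smul_apply, smul_eq_mul,
      Pi.zero_apply]
    ring

end Pool.Agent.Y726.SJ.SEC
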